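import Pool.Agent.K3h2.LT.Stm

/-!
# Brick IVT: limit points of slowly varying real sequences form an interval
-/

set_option autoImplicit false

open Filter Topology

namespace Pool.Agent.K3h87.LT

open Pool.Agent.K3h2.LT

theorem t_IVT : S_IVT := by
  classical
  intro t ht a b c φ ψ hφ hψ ha hb hac hcb
  have key : ∀ j : ℕ, ∃ᶠ n in atTop, |t n - c| ≤ 1 / ((j : ℝ) + 1) := by
    intro j
    have hε : (0 : ℝ) < 1 / ((j : ℝ) + 1) := by positivity
    rw [frequently_atTop]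
    intro N
    obtain ⟨N1, hN1⟩ := (Metric.tendsto_atTop.1 ht) _ hε
    obtain ⟨j1, hj1a, hj1b⟩ := ((ha.eventually (gt_mem_nhds hac)).and
      (hφ.tendsto_atTop.eventually (eventually_ge_atTop (max N N1)))).exists
    obtain ⟨j2, hj2a, hj2b⟩ := ((hb.eventually (lt_mem_nhds hcb)).and
      (hψ.tendsto_atTop.eventually (eventually_gt_atTop (φ j1)))).exists
    have hex : ∃ k, φ j1 < k ∧ c < t k := ⟨ψ j2, hj2b, hj2a⟩
    obtain ⟨k, ⟨hk1, hk2⟩, hmin⟩ : ∃ k, (φ j1 < k ∧ c < t k) ∧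
        ∀ l < k, ¬ (φ j1 < l ∧ c < t l) := ⟨Nat.find hex, Nat.find_spec hex,
      fun l hl => Nat.find_min hex hl⟩
    obtain ⟨n, rfl⟩ : ∃ n, k = n + 1 := ⟨k - 1, by omega⟩
    have hle : t n ≤ c := by
      rcases Nat.lt_or_ge (φ j1) n with h | h
      · by_contra hlt
        exact hmin n (by omega) ⟨h, not_le.1 hlt⟩
      · have : n = φ j1 := by omega
        rw [this]
        exact hj1a.le
    have hmax1 : N ≤ φ j1 := le_trans (le_max_left _ _) hj1b
    have hmax2 : N1 ≤ φ j1 := le_trans (le_max_right _ _) hj1b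
    refine ⟨n, by omega, ?_⟩
    have h1 := hN1 n (by omega)
    rw [Real.dist_eq, sub_zero] at h1
    have h2 := (abs_lt.1 h1).2
    rw [abs_le]
    constructor <;> linarith
  obtain ⟨θ, hθ, hθ'⟩ := extraction_forall_of_frequently key
  refine ⟨θ, hθ, ?_⟩
  rw [tendsto_iff_dist_tendsto_zero]
  refine squeeze_zero (fun _ => dist_nonneg) (fun j => ?_)
    (tendsto_one_div_add_atTop_nhds_zero_nat (𝕜 := ℝ))
  rw [Real.dist_eq]
  exact hθ' j

end Pool.Agent.K3h87.LT
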